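import Mathlib

/-! # Polynomials with bounded partial degrees as arrays; the determinant of the monomials -/

set_option autoImplicit false

namespace Pool.Agent.J4.H86.EB

open Finset MvPolynomial

noncomputable section

/-- the exponent vector of an array index -/
def ex {V : Type*} [Fintype V] {d : ℕ} (f : V → Fin (d + 1)) : V →₀ ℕ :=
  Finsupp.equivFunOnFinite.symm (fun v => (f v : ℕ))

lemma ex_apply {V : Type*} [Fintype V] {d : ℕ} (f : V → Fin (d + 1)) (v : V) : ex f v = (f v : ℕ) := rfl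

lemma ex_inj {V : Type*} [Fintype V] {d : ℕ} : Function.Injective (ex (V := V) (d := d)) := by
  intro f g h
  funext v
  have := DFunLike.congr_fun h v
  exact Fin.ext this

lemma eval_sum {V : Type*} [Fintype V] [DecidableEq V] {d : ℕ} (P : MvPolynomial V ℝ)
    (hP : ∀ v, P.degreeOf v ≤ d) (z : V → ℝ) :
    eval z P = ∑ f : V → Fin (d + 1), coeff (ex f) P * ∏ v, z v ^ (f v : ℕ) := by
  classical
  rw [MvPolynomial.eval_eq']
  have h1 : P.support ⊆ (univ : Finset (V → Fin (d + 1))).image ex := by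
    intro s hs
    rw [mem_image]
    have hb : ∀ v, s v < d + 1 := fun v =>
      Nat.lt_succ_of_le ((MvPolynomial.monomial_le_degreeOf v hs).trans (hP v))
    refine ⟨fun v => ⟨s v, hb v⟩, mem_univ _, ?_⟩
    ext v
    rw [ex_apply]
  rw [Finset.sum_subset h1, Finset.sum_image (fun a _ b _ h => ex_inj h)]
  · rfl
  · intro s _ hs
    rw [MvPolynomial.notMem_support_iff.1 hs, zero_mul]

lemma coeff_ne {V : Type*} [Fintype V] [DecidableEq V] {d : ℕ} (P : MvPolynomial V ℝ)
    (hP : ∀ v, P.degreeOf v ≤ d) (h0 : P ≠ 0) : ∃ f : V → Fin (d + 1), coeff (ex f) P ≠ 0 := by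
  obtain ⟨s, hs⟩ := MvPolynomial.support_nonempty.2 h0
  have hb : ∀ v, s v < d + 1 := fun v =>
    Nat.lt_succ_of_le ((MvPolynomial.monomial_le_degreeOf v hs).trans (hP v))
  refine ⟨fun v => ⟨s v, hb v⟩, ?_⟩
  have : ex (d := d) (fun v => (⟨s v, hb v⟩ : Fin (d + 1))) = s := by
    ext v
    rw [ex_apply]
  rw [this]
  exact MvPolynomial.mem_support_iff.1 hs

variable (W : Type) [Fintype W] [DecidableEq W]

/-- the matrix of the monomials with exponents `≤ d` at the points `z j`, as polynomials -/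
def Mx (d : ℕ) : Matrix (W → Fin (d + 1)) (W → Fin (d + 1)) (MvPolynomial ((W → Fin (d + 1)) × W) ℝ) :=
  fun j α => ∏ i, X (j, i) ^ (α i : ℕ)

/-- the determinant of the monomials -/
def Dl (d : ℕ) : MvPolynomial ((W → Fin (d + 1)) × W) ℝ := (Mx W d).det

/-- the matrix of the monomials at the points `z j` -/
def Mr (d : ℕ) (z : (W → Fin (d + 1)) × W → ℝ) : Matrix (W → Fin (d + 1)) (W → Fin (d + 1)) ℝ :=
  Matrix.of fun j α => ∏ i, z (j, i) ^ (α i : ℕ)

lemma eval_Dl (d : ℕ) (z : (W → Fin (d + 1)) × W → ℝ) : eval z (Dl W d) = (Mr W d z).det := by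
  unfold Dl
  rw [RingHom.map_det]
  congr 1
  ext j α
  simp [Mx, Mr, RingHom.mapMatrix_apply, Matrix.map_apply]

/-- the number of an exponent vector -/
def num (d : ℕ) : (W → Fin (d + 1)) ≃ Fin ((d + 1) ^ Fintype.card W) :=
  ((Fintype.equivFin W).arrowCongr (Equiv.refl _)).trans finFunctionFinEquiv

lemma num_apply (d : ℕ) (α : W → Fin (d + 1)) :
    ((num W d α : Fin _) : ℕ) = ∑ w, (α w : ℕ) * (d + 1) ^ ((Fintype.equivFin W w : Fin _) : ℕ) := by
  unfold num
  rw [Equiv.trans_apply, finFunctionFinEquiv_apply]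
  rw [← Equiv.sum_comp (Fintype.equivFin W)]
  refine Finset.sum_congr rfl fun w _ => ?_
  simp [Equiv.arrowCongr]

lemma Dl_ne (d : ℕ) : Dl W d ≠ 0 := by
  intro h
  have h1 := eval_Dl W d (fun v => ((2 : ℝ) ^ ((d + 1) ^ ((Fintype.equivFin W v.2 : Fin _) : ℕ))) ^
    ((num W d v.1 : Fin _) : ℕ))
  rw [h, map_zero] at h1
  have h2 : Mr W d (fun v : (W → Fin (d + 1)) × W =>
      ((2 : ℝ) ^ ((d + 1) ^ ((Fintype.equivFin W v.2 : Fin _) : ℕ))) ^ ((num W d v.1 : Fin _) : ℕ)) =
      ((Matrix.vandermonde (fun t : Fin ((d + 1) ^ Fintype.card W) =>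
        (2 : ℝ) ^ (t : ℕ))).transpose).submatrix (num W d) (num W d) := by
    ext j α
    rw [Mr, Matrix.of_apply, Matrix.submatrix_apply, Matrix.transpose_apply, Matrix.vandermonde_apply,
      num_apply W d α, ← pow_mul]
    simp only [← pow_mul]
    rw [Finset.prod_pow_eq_pow_sum]
    congr 1
    rw [Finset.sum_mul]
    refine Finset.sum_congr rfl fun i _ => ?_
    ring
  rw [h2, Matrix.det_submatrix_equiv_self, Matrix.det_transpose] at h1
  refine Matrix.det_vandermonde_ne_zero_iff.2 ?_ h1.symm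
  intro a b hab
  have := pow_right_injective₀ (by norm_num : (0 : ℝ) < 2) (by norm_num) hab
  exact Fin.ext this

variable {W}

/-- a nonzero polynomial with partial degrees `≤ d` vanishes at all the points: the determinant
vanishes -/
lemma Dl_zero {d : ℕ} (P : MvPolynomial W ℝ) (h0 : P ≠ 0) (hP : ∀ v, P.degreeOf v ≤ d)
    (z : (W → Fin (d + 1)) × W → ℝ) (hz : ∀ j, eval (fun i => z (j, i)) P = 0) :
    eval z (Dl W d) = 0 := by
  rw [eval_Dl, ← Matrix.exists_mulVec_eq_zero_iff]
  obtain ⟨f, hf⟩ := coeff_ne P hP h0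
  refine ⟨fun α => coeff (ex α) P, fun h => hf (congrFun h f), ?_⟩
  funext j
  have := hz j
  rw [eval_sum P hP] at this
  rw [Pi.zero_apply, ← this]
  unfold Matrix.mulVec dotProduct Mr
  simp only [Matrix.of_apply]
  refine Finset.sum_congr rfl fun α _ => ?_
  rw [mul_comm]

end

end Pool.Agent.J4.H86.EB
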