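import Mathlib

/-! # Counting separated patterns -/

set_option autoImplicit false

namespace Pool.Agent.J4.H86.EB

open Finset

/-- few patterns have two entries with nearly a given difference -/
lemma few {I : Type} [Fintype I] [DecidableEq I] (r : ℕ) (j j' : I) (hj : j ≠ j') (β : ℤ) (ρ : ℝ)
    (hρ : 0 ≤ ρ) :
    (((Fintype.piFinset (fun _ : I => Finset.range r)).filter
      (fun c : I → ℕ => |((c j : ℤ) + β - (c j' : ℤ) : ℝ)| < ρ)).card : ℝ) ≤
      (r : ℝ) ^ (Fintype.card I - 1) * (2 * ρ + 1) := by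
  classical
  obtain ⟨A, hA⟩ : ∃ A : Finset (I → ℕ), A = Fintype.piFinset
    (fun i : I => if i = j then {0} else Finset.range r) := ⟨_, rfl⟩
  obtain ⟨M, hM⟩ : ∃ M : ℤ, M = ⌊ρ⌋ := ⟨_, rfl⟩
  have hM0 : 0 ≤ M := by rw [hM]; exact Int.floor_nonneg.2 hρ
  have hAc : A.card = r ^ (Fintype.card I - 1) := by
    rw [hA, Fintype.card_piFinset, ← Finset.mul_prod_erase univ _ (Finset.mem_univ j)]
    rw [if_pos rfl, Finset.card_singleton, one_mul]
    rw [Finset.prod_congr rfl (g := fun _ => r)]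
    · rw [Finset.prod_const, Finset.card_erase_of_mem (Finset.mem_univ j), Finset.card_univ]
    · intro i hi
      rw [if_neg (Finset.ne_of_mem_erase hi), Finset.card_range]
  have h1 : ((Fintype.piFinset (fun _ : I => Finset.range r)).filter
      (fun c : I → ℕ => |((c j : ℤ) + β - (c j' : ℤ) : ℝ)| < ρ)).card ≤
      (A ×ˢ Finset.Icc (-M) M).card := by
    apply Finset.card_le_card_of_injOn
      (fun c => (Function.update c j 0, (c j : ℤ) + β - (c j' : ℤ)))
    · intro c hc
      rw [mem_coe, mem_filter, Fintype.mem_piFinset] at hc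
      obtain ⟨hc1, hc2⟩ := hc
      rw [mem_coe, mem_product]
      refine ⟨?_, ?_⟩
      · rw [hA, Fintype.mem_piFinset]
        intro i
        by_cases hi : i = j
        · subst hi
          simp
        · simp only [hi, if_false]
          rw [Function.update_of_ne hi]
          exact hc1 i
      · rw [Finset.mem_Icc]
        have h2 : |(((c j : ℤ) + β - (c j' : ℤ) : ℤ) : ℝ)| < ρ := by
          push_cast
          exact_mod_cast hc2
        rw [abs_lt] at h2
        constructor
        · have : -(((c j : ℤ) + β - (c j' : ℤ) : ℤ)) ≤ M := by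
            rw [hM, Int.le_floor]
            push_cast
            push_cast at h2
            linarith [h2.1]
          linarith
        · rw [hM, Int.le_floor]
          exact h2.2.le
    · intro c _ c' _ h
      rw [Prod.mk.injEq] at h
      obtain ⟨h1, h2⟩ := h
      have h3 : ∀ i, i ≠ j → c i = c' i := by
        intro i hi
        have := congrFun h1 i
        rwa [Function.update_of_ne hi, Function.update_of_ne hi] at this
      funext i
      by_cases hi : i = j
      · subst hi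
        have h4 := h3 j' hj.symm
        rw [h4] at h2
        have : (c i : ℤ) = c' i := by linarith
        exact_mod_cast this
      · exact h3 i hi
  have h2 : ((A ×ˢ Finset.Icc (-M) M).card : ℝ) ≤ (r : ℝ) ^ (Fintype.card I - 1) * (2 * ρ + 1) := by
    rw [Finset.card_product, hAc, Int.card_Icc]
    push_cast
    have h3 : (((M + 1 - -M).toNat : ℕ) : ℝ) ≤ 2 * ρ + 1 := by
      have h4 : (((M + 1 - -M).toNat : ℕ) : ℤ) = 2 * M + 1 := by
        rw [Int.toNat_of_nonneg (by linarith)]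
        ring
      have h5 : (((M + 1 - -M).toNat : ℕ) : ℝ) = 2 * (M : ℝ) + 1 := by exact_mod_cast h4
      have h6 : (M : ℝ) ≤ ρ := by rw [hM]; exact Int.floor_le ρ
      linarith
    gcongr
  calc _ ≤ (((A ×ˢ Finset.Icc (-M) M).card : ℕ) : ℝ) := by exact_mod_cast h1
    _ ≤ _ := h2

/-- the pattern `c` is separated, with shifts `b` and distance `ρ` -/
def Sep {I : Type} {K : ℕ} (b : Fin K → ℕ) (ρ : ℝ) (c : I → ℕ) : Prop :=
  ∀ v w : I × Fin K, v ≠ w → ρ ≤ |((c v.1 + b v.2 : ℕ) : ℝ) - ((c w.1 + b w.2 : ℕ) : ℝ)|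

open Classical in
/-- most patterns in a set of positive density are separated -/
lemma many {I : Type} [Fintype I] [DecidableEq I] {K : ℕ} (b : Fin K → ℕ) (ρ : ℝ) (hρ : 0 ≤ ρ)
    (hb : ∀ i i', i ≠ i' → ρ ≤ |((b i : ℕ) : ℝ) - (b i' : ℕ)|) (r : ℕ) (A : Finset ℕ)
    (hA : A ⊆ Finset.range r) :
    (A.card : ℝ) ^ (Fintype.card I) -
      ((Fintype.card I * K : ℕ) : ℝ) ^ 2 * ((r : ℝ) ^ (Fintype.card I - 1) * (2 * ρ + 1)) ≤
    (((Fintype.piFinset (fun _ : I => A)).filter (Sep b ρ)).card : ℝ) := by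
  classical
  obtain ⟨T, hT⟩ : ∃ T : Finset (I → ℕ), T = Fintype.piFinset (fun _ : I => Finset.range r) := ⟨_, rfl⟩
  obtain ⟨B, hB⟩ : ∃ B : Finset (I → ℕ), B = Fintype.piFinset (fun _ : I => A) := ⟨_, rfl⟩
  have hBT : B ⊆ T := by
    rw [hB, hT]
    exact Fintype.piFinset_subset _ _ fun _ => hA
  have hBc : B.card = A.card ^ Fintype.card I := by
    rw [hB, Fintype.card_piFinset, Finset.prod_const, Finset.card_univ]
  obtain ⟨F, hF⟩ : ∃ F : (I × Fin K) × (I × Fin K) → Finset (I → ℕ), F = fun x =>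
    if x.1.1 = x.2.1 then ∅ else T.filter (fun c : I → ℕ =>
      |((c x.1.1 : ℤ) + ((b x.1.2 : ℤ) - (b x.2.2 : ℤ) : ℤ) - (c x.2.1 : ℤ) : ℝ)| < ρ) := ⟨_, rfl⟩
  have h1 : B.filter (fun c => ¬ Sep b ρ c) ⊆ univ.biUnion F := by
    intro c hc
    rw [mem_filter] at hc
    obtain ⟨hc1, hc2⟩ := hc
    unfold Sep at hc2
    push Not at hc2
    obtain ⟨v, w, hvw, h2⟩ := hc2
    rw [mem_biUnion]
    refine ⟨(v, w), mem_univ _, ?_⟩
    rw [hF]
    have h3 : v.1 ≠ w.1 := by
      intro h4
      have h5 : v.2 ≠ w.2 := fun h5 => hvw (Prod.ext h4 h5)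
      have := hb _ _ h5
      rw [h4] at h2
      push_cast at h2
      rw [add_sub_add_left_eq_sub] at h2
      linarith
    simp only [h3, if_false]
    rw [mem_filter]
    refine ⟨hBT hc1, ?_⟩
    push_cast at h2 ⊢
    rw [show (c v.1 : ℝ) + ((b v.2 : ℝ) - b w.2) - c w.1 = c v.1 + b v.2 - (c w.1 + b w.2) by ring]
    exact h2
  have h2 : ((B.filter (fun c => ¬ Sep b ρ c)).card : ℝ) ≤
      ((Fintype.card I * K : ℕ) : ℝ) ^ 2 * ((r : ℝ) ^ (Fintype.card I - 1) * (2 * ρ + 1)) := by
    have h3 : ((B.filter (fun c => ¬ Sep b ρ c)).card : ℝ) ≤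
        ∑ x : (I × Fin K) × (I × Fin K), ((F x).card : ℝ) := by
      exact_mod_cast (Finset.card_le_card h1).trans Finset.card_biUnion_le
    have h0 : 0 ≤ (r : ℝ) ^ (Fintype.card I - 1) * (2 * ρ + 1) := by positivity
    have h4 : ∀ x, ((F x).card : ℝ) ≤ (r : ℝ) ^ (Fintype.card I - 1) * (2 * ρ + 1) := by
      intro x
      rw [hF]
      by_cases hx : x.1.1 = x.2.1
      · simp only [hx, if_true, card_empty, Nat.cast_zero]
        exact h0
      · simp only [hx, if_false]
        rw [hT]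
        exact few r _ _ hx _ ρ hρ
    refine h3.trans ((Finset.sum_le_sum fun x _ => h4 x).trans (le_of_eq ?_))
    rw [Finset.sum_const, Finset.card_univ, Fintype.card_prod, Fintype.card_prod, Fintype.card_fin,
      nsmul_eq_mul, ← pow_two, Nat.cast_pow]
  have h3 := Finset.card_filter_add_card_filter_not (s := B) (Sep b ρ)
  rw [hBc] at h3
  have h4 : ((B.filter (Sep b ρ)).card : ℝ) + ((B.filter (fun c => ¬ Sep b ρ c)).card : ℝ) =
      (A.card : ℝ) ^ Fintype.card I := by exact_mod_cast h3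
  rw [← hB]
  linarith

end Pool.Agent.J4.H86.EB
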