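import Pool.Agent.J4.H86.EB.Alg
import Pool.Agent.J4.H86.EB.Cnt

/-! # All polynomials simultaneously in blocks -/

set_option autoImplicit false

namespace Pool.Agent.J4.H86.EB

open Finset MvPolynomial Filter

noncomputable section

/-- the input: relations between separated members of the sequence `g` are rare -/
def Rare (g : ℕ → ℝ) : Prop :=
  ∀ (V : Type) [Fintype V] [DecidableEq V] (v0 : V) (d : ℕ) (σ η : ℝ), 0 < σ → 0 < η →
    ∃ δ : ℝ, 0 < δ ∧ ∀ᶠ r : ℕ in atTop,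
    ∀ N : ℕ, 1 ≤ N → r * Real.log r ≤ Real.log N → ∀ b : V → ℕ, b v0 = 0 → (∀ v, b v ≤ r) →
    (∀ v w, v ≠ w → (r : ℝ) ^ σ ≤ |(b v : ℝ) - b w|) →
    ∀ P : MvPolynomial V ℝ, P ≠ 0 → P.totalDegree ≤ d → ∀ E : Finset ℕ,
    (∀ n ∈ E, 1 ≤ n ∧ n ≤ N ∧ ∃ y : V → ℝ, eval y P = 0 ∧ y v0 = g n ∧
      ∀ v, |g (n + b v) - y v| ≤ δ * (Real.sqrt (Real.log r) / Real.log (g n))) →
    (E.card : ℝ) ≤ η * N

lemma r_le_N {r N : ℕ} (hr2 : 2 ≤ r) (hN : 1 ≤ N)
    (hrN : (2 * r : ℝ) * Real.log (2 * r) ≤ Real.log N) : r ≤ N := by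
  have hr2' : (2 : ℝ) ≤ r := by exact_mod_cast hr2
  have hN1 : (1 : ℝ) ≤ N := by exact_mod_cast hN
  have h1 : Real.log N ≤ N - 1 := Real.log_le_sub_one_of_pos (by linarith)
  have h2 : (1 : ℝ) / 2 ≤ Real.log (2 * r) := by
    have h3 : Real.log 2 ≤ Real.log (2 * r) := Real.log_le_log (by norm_num) (by linarith)
    have := Real.log_two_gt_d9
    linarith
  have h3 : (r : ℝ) ≤ N := by
    have : (2 * r : ℝ) * (1 / 2) ≤ (2 * r : ℝ) * Real.log (2 * r) :=
      mul_le_mul_of_nonneg_left h2 (by positivity)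
    linarith
  exact_mod_cast h3

lemma block (g : ℕ → ℝ) (n0 : ℕ) (hg1 : ∀ n, n0 ≤ n → 1 < g n)
    (hgm : ∀ m n, 1 ≤ m → m ≤ n → g m ≤ g n) (hmain : Rare g) (k d : ℕ) (σ η : ℝ) (hσ : 0 < σ) (hη : 0 < η) :
    ∃ δ : ℝ, 0 < δ ∧ ∀ᶠ r : ℕ in atTop, ∀ N : ℕ, 1 ≤ N →
    (2 * r : ℝ) * Real.log (2 * r) ≤ Real.log N → ∀ b : Fin (k + 1) → ℕ, b 0 = 0 → (∀ v, b v ≤ r) →
    (∀ v w, v ≠ w → (r : ℝ) ^ σ ≤ |(b v : ℝ) - b w|) → ∀ E : Finset ℕ,
    (∀ n ∈ E, (n0 ≤ n ∧ 1 ≤ n) ∧ n ≤ N ∧ ∃ P : MvPolynomial (Fin (k + 1)) ℝ, P ≠ 0 ∧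
      (∀ v, P.degreeOf v ≤ d) ∧ ∃ S : Finset ℕ, S ⊆ Finset.Ico n (n + r) ∧ η * r < S.card ∧
      ∀ m ∈ S, ∃ y : Fin (k + 1) → ℝ, eval y P = 0 ∧ y 0 = g m ∧
        ∀ i, |g (m + b i) - y i| ≤ δ * (Real.sqrt (Real.log r) / Real.log (g m))) →
    (E.card : ℝ) ≤ η * N := by
  classical
  -- notation
  let I := Fin (k + 1) → Fin (d + 1)
  let V := I × Fin (k + 1)
  let j0 : I := fun _ => 0
  obtain ⟨D, hD⟩ : ∃ D : ℕ, D = Fintype.card I := ⟨_, rfl⟩
  have hD1 : 1 ≤ D := by rw [hD]; exact Fintype.card_pos_iff.2 ⟨j0⟩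
  obtain ⟨σ', hσ'⟩ : ∃ σ' : ℝ, σ' = min σ (1 / 2) := ⟨_, rfl⟩
  have hσ'0 : 0 < σ' := by rw [hσ']; exact lt_min hσ (by norm_num)
  have hσ'σ : σ' ≤ σ := by rw [hσ']; exact min_le_left _ _
  have hσ'h : σ' ≤ 1 / 2 := by rw [hσ']; exact min_le_right _ _
  obtain ⟨η', hη'⟩ : ∃ η' : ℝ, η' = η ^ (D + 1) / 4 := ⟨_, rfl⟩
  have hη'0 : 0 < η' := by rw [hη']; positivity
  obtain ⟨δ, hδ, hev⟩ := hmain V (j0, 0) (Dl (Fin (k + 1)) d).totalDegree (σ' / 2) η' (by positivity) hη'0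
  refine ⟨δ, hδ, ?_⟩
  have hev2 := (tendsto_id.const_mul_atTop' (by norm_num : 0 < 2) : Tendsto (fun r : ℕ => 2 * r)
    atTop atTop).eventually hev
  -- most patterns
  obtain ⟨Q0, hQ0⟩ : ∃ Q0 : ℝ, Q0 = ((D * (k + 1) : ℕ) : ℝ) ^ 2 := ⟨_, rfl⟩
  have hQ00 : 0 ≤ Q0 := by rw [hQ0]; positivity
  have hev3 : ∀ᶠ r : ℕ in atTop, Q0 * (2 * (r : ℝ) ^ σ' + 1) ≤ η ^ D / 2 * r := by
    have h1 : Tendsto (fun r : ℕ => Real.sqrt r) atTop atTop :=
      Real.tendsto_sqrt_atTop.comp tendsto_natCast_atTop_atTop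
    filter_upwards [h1.eventually_ge_atTop (6 * Q0 / η ^ D), eventually_ge_atTop 1] with r hr hr1
    have hr1' : (1 : ℝ) ≤ r := by exact_mod_cast hr1
    have h2 : (r : ℝ) ^ σ' ≤ Real.sqrt r := by
      rw [Real.sqrt_eq_rpow]
      exact Real.rpow_le_rpow_of_exponent_le hr1' hσ'h
    have h3 : 1 ≤ Real.sqrt r := Real.one_le_sqrt.2 hr1'
    have h4 : Real.sqrt r * Real.sqrt r = r := Real.mul_self_sqrt (by linarith)
    rw [div_le_iff₀ (by positivity)] at hr
    calc Q0 * (2 * (r : ℝ) ^ σ' + 1) ≤ Q0 * (2 * Real.sqrt r + Real.sqrt r) := by gcongr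
      _ = (6 * Q0) / 2 * Real.sqrt r := by ring
      _ ≤ (Real.sqrt r * η ^ D) / 2 * Real.sqrt r := by gcongr
      _ = η ^ D / 2 * (Real.sqrt r * Real.sqrt r) := by ring
      _ = _ := by rw [h4]
  filter_upwards [hev2, hev3, eventually_ge_atTop 2] with r hr hr3 hr2
  intro N hN hrN b hb0 hb hbb E hE
  have hr2' : (2 : ℝ) ≤ r := by exact_mod_cast hr2
  have hr0 : (0 : ℝ) < r := by linarith
  have hN1 : (1 : ℝ) ≤ N := by exact_mod_cast hN
  have hρ0 : 0 ≤ (r : ℝ) ^ σ' := by positivity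
  have hρσ : (r : ℝ) ^ σ' ≤ (r : ℝ) ^ σ := Real.rpow_le_rpow_of_exponent_le (by linarith) hσ'σ
  have hρ2 : ((2 * r : ℕ) : ℝ) ^ (σ' / 2) ≤ (r : ℝ) ^ σ' := by
    have h1 : ((2 * r : ℕ) : ℝ) ≤ (r : ℝ) ^ (2 : ℝ) := by
      push_cast
      rw [Real.rpow_two]
      nlinarith
    calc ((2 * r : ℕ) : ℝ) ^ (σ' / 2) ≤ ((r : ℝ) ^ (2 : ℝ)) ^ (σ' / 2) :=
          Real.rpow_le_rpow (Nat.cast_nonneg _) h1 (by positivity)
      _ = (r : ℝ) ^ σ' := by rw [← Real.rpow_mul hr0.le]; congr 1; ring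
  have hrN' : r ≤ N := r_le_N hr2 hN hrN
  choose! hE1 hE2 P hP0 hPd S hS1 hS2 y hy0 hy1 hy2 using hE
  -- the patterns
  obtain ⟨T, hT⟩ : ∃ T : Finset (I → ℕ), T = Fintype.piFinset (fun _ : I => Finset.range r) := ⟨_, rfl⟩
  have hTc : (T.card : ℝ) = (r : ℝ) ^ D := by
    rw [hT, Fintype.card_piFinset, Finset.prod_const, Finset.card_univ, Finset.card_range, hD]
    push_cast
    rfl
  obtain ⟨A, hA⟩ : ∃ A : ℕ → Finset ℕ, A = fun n => (Finset.range r).filter (fun a => n + a ∈ S n) :=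
    ⟨_, rfl⟩
  have hAc : ∀ n ∈ E, (A n).card = (S n).card := by
    intro n hn
    rw [hA]
    apply Finset.card_bij (fun a _ => n + a)
    · intro a ha
      exact (mem_filter.1 ha).2
    · intro a _ a' _ h
      exact Nat.add_left_cancel h
    · intro m hm
      have := mem_Ico.1 (hS1 n hn hm)
      refine ⟨m - n, ?_, by omega⟩
      rw [mem_filter, mem_range]
      refine ⟨by omega, ?_⟩
      rw [Nat.add_sub_cancel' this.1]
      exact hm
  obtain ⟨G, hG⟩ : ∃ G : Finset (I → ℕ), G = T.filter (Sep b ((r : ℝ) ^ σ')) := ⟨_, rfl⟩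
  obtain ⟨R, hR⟩ : ∃ R : ℕ → (I → ℕ) → Prop, R = fun n c => ∀ j, n + c j ∈ S n := ⟨_, rfl⟩
  have hRn : ∀ n c, R n c ↔ ∀ j, n + c j ∈ S n := by
    intro n c
    rw [hR]
  have hlow : ∀ n ∈ E, (η * r) ^ D / 2 ≤ ((G.filter (R n)).card : ℝ) := by
    intro n hn
    have h1 := many (I := I) b ((r : ℝ) ^ σ') hρ0 (fun i i' h => hρσ.trans (hbb i i' h)) r (A n)
      (by rw [hA]; exact filter_subset _ _)
    have h2 : (Fintype.piFinset (fun _ : I => A n)).filter (Sep b ((r : ℝ) ^ σ')) ⊆ G.filter (R n) := by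
      intro c hc
      rw [mem_filter, Fintype.mem_piFinset] at hc
      rw [hG, hT, mem_filter, mem_filter, Fintype.mem_piFinset, hRn]
      have h3 : ∀ j, c j ∈ (Finset.range r).filter (fun a => n + a ∈ S n) := by
        intro j
        have := hc.1 j
        rw [hA] at this
        exact this
      exact ⟨⟨fun j => (mem_filter.1 (h3 j)).1, hc.2⟩, fun j => (mem_filter.1 (h3 j)).2⟩
    have h3 : (((Fintype.piFinset (fun _ : I => A n)).filter (Sep b ((r : ℝ) ^ σ'))).card : ℝ) ≤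
        ((G.filter (R n)).card : ℝ) := by exact_mod_cast Finset.card_le_card h2
    rw [← hD, ← hQ0, hAc n hn] at h1
    have h4 : (η * r) ^ D ≤ ((S n).card : ℝ) ^ D :=
      pow_le_pow_left₀ (by positivity) (hS2 n hn).le _
    have h5 : Q0 * ((r : ℝ) ^ (D - 1) * (2 * (r : ℝ) ^ σ' + 1)) ≤ (η * r) ^ D / 2 := by
      have e : (r : ℝ) ^ D = (r : ℝ) ^ (D - 1) * r := by
        rw [← pow_succ, Nat.sub_add_cancel hD1]
      calc Q0 * ((r : ℝ) ^ (D - 1) * (2 * (r : ℝ) ^ σ' + 1))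
          = (r : ℝ) ^ (D - 1) * (Q0 * (2 * (r : ℝ) ^ σ' + 1)) := by ring
        _ ≤ (r : ℝ) ^ (D - 1) * (η ^ D / 2 * r) := by gcongr
        _ = η ^ D * ((r : ℝ) ^ (D - 1) * r) / 2 := by ring
        _ = _ := by rw [← e, mul_pow]
    linarith
  have hup : ∀ c ∈ G, ((E.filter (fun n => R n c)).card : ℝ) ≤ η' * (2 * N) := by
    intro c hc
    rw [hG, hT, mem_filter, Fintype.mem_piFinset] at hc
    obtain ⟨hc1, hc2⟩ := hc
    -- the smallest entry first
    obtain ⟨j1, hj1⟩ : ∃ j1 : I, ∀ j, c j1 ≤ c j := by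
      obtain ⟨j1, -, h⟩ := Finset.exists_min_image (univ : Finset I) c ⟨j0, mem_univ _⟩
      exact ⟨j1, fun j => h j (mem_univ _)⟩
    obtain ⟨s, hs⟩ : ∃ s : Equiv.Perm I, s = Equiv.swap j0 j1 := ⟨_, rfl⟩
    have hs0 : s j0 = j1 := by rw [hs]; exact Equiv.swap_apply_left _ _
    obtain ⟨E', hE'⟩ : ∃ E' : Finset ℕ, E' = (E.filter (fun n => R n c)).image (fun n => n + c j1) :=
      ⟨_, rfl⟩
    have hE'c : E'.card = (E.filter (fun n => R n c)).card := by
      rw [hE']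
      exact Finset.card_image_of_injective _ (fun a a' h => Nat.add_right_cancel h)
    have hcr : ∀ j, c j < r := fun j => Finset.mem_range.1 (hc1 j)
    have key := hr (2 * N) (by omega) (by
        push_cast
        refine hrN.trans (Real.log_le_log (by linarith) (by linarith)))
      (fun v : V => c (s v.1) + b v.2 - c j1) (by
        show c (s j0) + b 0 - c j1 = 0
        rw [hs0, hb0]
        omega) (fun v => by
        have h1 := hcr (s v.1)
        have h2 := hb v.2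
        omega) (by
        intro v w hvw
        have h1 := hc2 (s v.1, v.2) (s w.1, w.2) (by
          intro h
          rw [Prod.mk.injEq] at h
          exact hvw (Prod.ext (s.injective h.1) h.2))
        have e : ∀ v : V, ((c (s v.1) + b v.2 - c j1 : ℕ) : ℝ) =
            ((c (s v.1) + b v.2 : ℕ) : ℝ) - c j1 := by
          intro v
          rw [Nat.cast_sub (le_trans (hj1 _) (Nat.le_add_right _ _))]
        rw [e, e, sub_sub_sub_cancel_right]
        exact hρ2.trans h1) (Dl (Fin (k + 1)) d) (Dl_ne _ _) le_rfl E' (by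
        intro n' hn'
        rw [hE', mem_image] at hn'
        obtain ⟨n, hn, rfl⟩ := hn'
        rw [mem_filter] at hn
        obtain ⟨hnE, hnR⟩ := hn
        rw [hRn] at hnR
        obtain ⟨hn0, hn1⟩ := hE1 n hnE
        have hn2 := hE2 n hnE
        have hcj1 := hcr j1
        refine ⟨by omega, by omega, fun v => y n (n + c (s v.1)) v.2, ?_, ?_, ?_⟩
        · apply Dl_zero (P n) (hP0 n hnE) (hPd n hnE)
          intro j
          exact hy0 n hnE (n + c (s j)) (hnR (s j))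
        · show y n (n + c (s j0)) 0 = g (n + c j1)
          rw [hs0]
          exact hy1 n hnE _ (hnR j1)
        · intro v
          have h1 := hy2 n hnE (n + c (s v.1)) (hnR (s v.1)) v.2
          have e : n + c j1 + (c (s v.1) + b v.2 - c j1) = n + c (s v.1) + b v.2 := by
            have := hj1 (s v.1)
            omega
          simp only
          rw [e]
          refine h1.trans ?_
          have h2 : g (n + c j1) ≤ g (n + c (s v.1)) :=
            hgm _ _ (by omega) (by have := hj1 (s v.1); omega)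
          have h3 : 1 < g (n + c j1) := hg1 _ (by omega)
          have h4 : 0 < Real.log (g (n + c j1)) := Real.log_pos h3
          have h5 : Real.log (g (n + c j1)) ≤ Real.log (g (n + c (s v.1))) :=
            Real.log_le_log (by linarith) h2
          have h6 : Real.sqrt (Real.log r) ≤ Real.sqrt (Real.log ((2 * r : ℕ) : ℝ)) := by
            apply Real.sqrt_le_sqrt
            apply Real.log_le_log hr0
            push_cast
            linarith
          gcongr)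
    rw [hE'c] at key
    push_cast at key
    exact key
  -- double counting
  have hsum : ∑ n ∈ E, ((G.filter (R n)).card : ℝ) = ∑ c ∈ G, ((E.filter (fun n => R n c)).card : ℝ) := by
    have := Finset.sum_card_bipartiteAbove_eq_sum_card_bipartiteBelow (s := E) (t := G) R
    exact_mod_cast this
  have h1 : (E.card : ℝ) * ((η * r) ^ D / 2) ≤ (r : ℝ) ^ D * (η' * (2 * N)) := by
    calc (E.card : ℝ) * ((η * r) ^ D / 2) = ∑ _n ∈ E, (η * r) ^ D / 2 := by
          rw [Finset.sum_const, nsmul_eq_mul]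
      _ ≤ ∑ n ∈ E, ((G.filter (R n)).card : ℝ) := Finset.sum_le_sum hlow
      _ = ∑ c ∈ G, ((E.filter (fun n => R n c)).card : ℝ) := hsum
      _ ≤ ∑ _c ∈ G, η' * (2 * N) := Finset.sum_le_sum hup
      _ = (G.card : ℝ) * (η' * (2 * N)) := by rw [Finset.sum_const, nsmul_eq_mul]
      _ ≤ (T.card : ℝ) * (η' * (2 * N)) := by
          apply mul_le_mul_of_nonneg_right _ (by positivity)
          rw [hG]
          exact_mod_cast Finset.card_le_card (filter_subset _ _)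
      _ = _ := by rw [hTc]
  have h2 : 0 < (η * r) ^ D / 2 := by positivity
  apply le_of_mul_le_mul_right _ h2
  refine h1.trans (le_of_eq ?_)
  rw [hη', mul_pow, pow_succ]
  ring

end

end Pool.Agent.J4.H86.EB
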