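import Pool.Agent.J4.H86.EB.Multi

/-! # Blocks and clusters -/

set_option autoImplicit false

namespace Pool.Agent.J4.H86.EB

open Finset MvPolynomial Filter

noncomputable section

/-- `P (g_n, y_1, ..., y_k) = 0` for some `y_i` near `g (n + b i)` -/
def Rel (g : ℕ → ℝ) {k : ℕ} (P : MvPolynomial (Fin (k + 1)) ℝ) (b : Fin k → ℕ) (ε : ℝ) (n : ℕ) : Prop :=
  ∃ y : Fin k → ℝ, MvPolynomial.eval (Fin.cons (g n) y : Fin (k + 1) → ℝ) P = 0 ∧
    ∀ i, |g (n + b i) - y i| ≤ ε / Real.log (g n)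

/-- the shifts including `0` -/
def sh {k : ℕ} (b : Fin k → ℕ) : Fin (k + 1) → ℕ := Fin.cons 0 b

lemma sh_le {k r : ℕ} {σ : ℝ} {b : Fin k → ℕ} (hb : ∀ i, (r : ℝ) ^ σ ≤ b i ∧ b i ≤ r) (v : Fin (k + 1)) :
    sh b v ≤ r := by
  refine Fin.cases ?_ (fun i => ?_) v
  · exact Nat.zero_le _
  · exact (hb i).2

lemma sh_sep {k r : ℕ} {σ : ℝ} {b : Fin k → ℕ} (hb : ∀ i, (r : ℝ) ^ σ ≤ b i ∧ b i ≤ r)
    (hbb : ∀ i j, i ≠ j → (r : ℝ) ^ σ ≤ |(b i : ℝ) - b j|) (v w : Fin (k + 1)) :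
    v ≠ w → (r : ℝ) ^ σ ≤ |(sh b v : ℝ) - sh b w| := by
  refine Fin.cases ?_ (fun i => ?_) v
  · refine Fin.cases ?_ (fun j => ?_) w
    · intro h
      exact absurd rfl h
    · intro _
      simp only [sh, Fin.cons_zero, Fin.cons_succ, Nat.cast_zero, zero_sub, abs_neg]
      rw [abs_of_nonneg (Nat.cast_nonneg _)]
      exact (hb j).1
  · refine Fin.cases ?_ (fun j => ?_) w
    · intro _
      simp only [sh, Fin.cons_zero, Fin.cons_succ, Nat.cast_zero, sub_zero]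
      rw [abs_of_nonneg (Nat.cast_nonneg _)]
      exact (hb i).1
    · intro h
      simp only [sh, Fin.cons_succ]
      exact hbb i j (fun h' => h (by rw [h']))

open Classical in
theorem fin (g : ℕ → ℝ) (n0 : ℕ) (hg1 : ∀ n, n0 ≤ n → 1 < g n) (hgm : ∀ m n, 1 ≤ m → m ≤ n → g m ≤ g n)
    (hmain : Rare g) (k d : ℕ) (σ η : ℝ) (hσ : 0 < σ) (hη : 0 < η) (hη1 : η ≤ 1) :
    ∃ δ : ℝ, 0 < δ ∧ ∃ r₀ : ℕ, ∀ r : ℕ, r₀ ≤ r → ∀ N : ℕ, 1 ≤ N →
    (2 * r : ℝ) * Real.log (2 * r) ≤ Real.log N → ∀ b : Fin k → ℕ,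
    (∀ i, (r : ℝ) ^ σ ≤ b i ∧ b i ≤ r) → (∀ i j, i ≠ j → (r : ℝ) ^ σ ≤ |(b i : ℝ) - b j|) →
    ∃ G : Finset ℕ, G ⊆ Finset.Icc 1 N ∧ (1 - η) * N ≤ G.card ∧
      (∀ n ∈ G, ∀ P : MvPolynomial (Fin (k + 1)) ℝ, P ≠ 0 → (∀ v, P.degreeOf v ≤ d) →
        (((Finset.Ico n (n + r)).filter (Rel g P b (δ * Real.sqrt (Real.log r)))).card : ℝ) ≤ η * r) ∧
      ∀ (J : ℕ) (n : Fin J → ℕ), (∀ j, n j ∈ G) → ∀ P : MvPolynomial (Fin J × Fin (k + 1)) ℝ,
        P ≠ 0 → (∀ v, P.degreeOf v ≤ d) →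
        ((1 - η) * r) ^ J ≤ (((Fintype.piFinset (fun j => Finset.Ico (n j) (n j + r))).filter
          (fun m : Fin J → ℕ =>
            eval (fun v : Fin J × Fin (k + 1) => g (m v.1 + sh b v.2)) P ≠ 0)).card : ℝ) := by
  classical
  obtain ⟨δ, hδ, hev⟩ := block g n0 hg1 hgm hmain k d σ (η / 2) hσ (by positivity)
  have hev2 : ∀ᶠ r : ℕ in atTop, (n0 : ℝ) ≤ η / 2 * r := by
    filter_upwards [tendsto_natCast_atTop_atTop.eventually_ge_atTop ((n0 : ℝ) / (η / 2))] with r hr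
    rw [div_le_iff₀ (by positivity)] at hr
    linarith
  obtain ⟨r₀, hr₀⟩ := ((hev.and hev2).and (eventually_ge_atTop 2)).exists_forall_of_atTop
  refine ⟨δ, hδ, r₀, ?_⟩
  intro r hr N hN hrN b hb hbb
  obtain ⟨⟨hblk, hrn0⟩, hr2⟩ := hr₀ r hr
  have hr2' : (2 : ℝ) ≤ r := by exact_mod_cast hr2
  have hlr : 0 ≤ Real.log r := Real.log_nonneg (by linarith)
  obtain ⟨Bad, hBad⟩ : ∃ Bad : ℕ → Prop, Bad = fun n => ∃ P : MvPolynomial (Fin (k + 1)) ℝ, P ≠ 0 ∧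
    (∀ v, P.degreeOf v ≤ d) ∧
    η * r < (((Finset.Ico n (n + r)).filter (Rel g P b (δ * Real.sqrt (Real.log r)))).card : ℝ) :=
    ⟨_, rfl⟩
  have hrN1 : (r : ℝ) ≤ N := by exact_mod_cast r_le_N hr2 hN hrN
  obtain ⟨E, hE⟩ : ∃ E : Finset ℕ, E = (Finset.Icc 1 N).filter (fun n => n0 ≤ n ∧ Bad n) := ⟨_, rfl⟩
  have hEc : (E.card : ℝ) ≤ η / 2 * N := by
    refine hblk N hN hrN (sh b) rfl (sh_le hb) (sh_sep hb hbb) E ?_
    · intro n hn
      rw [hE, mem_filter, mem_Icc, hBad] at hn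
      obtain ⟨⟨h1, h2⟩, hn0, P, hP0, hPd, hP⟩ := hn
      refine ⟨⟨hn0, h1⟩, h2, P, hP0, hPd, _, filter_subset _ _,
        lt_of_le_of_lt (mul_le_mul_of_nonneg_right (by linarith) (Nat.cast_nonneg _)) hP, ?_⟩
      intro m hm
      rw [mem_filter, mem_Ico] at hm
      obtain ⟨⟨hm1, -⟩, y, hy1, hy2⟩ := hm
      refine ⟨Fin.cons (g m) y, hy1, rfl, ?_⟩
      intro i
      refine Fin.cases ?_ (fun j => ?_) i
      · simp only [sh, Fin.cons_zero, add_zero, sub_self, abs_zero]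
        have : 0 < Real.log (g m) := Real.log_pos (hg1 m (hn0.trans hm1))
        positivity
      · simp only [sh, Fin.cons_succ]
        rw [← mul_div_assoc]
        exact hy2 j
  obtain ⟨G, hG⟩ : ∃ G : Finset ℕ, G = (Finset.Icc 1 N).filter (fun n => n0 ≤ n ∧ ¬ Bad n) := ⟨_, rfl⟩
  have h1 : ∀ n ∈ G, ∀ P : MvPolynomial (Fin (k + 1)) ℝ, P ≠ 0 → (∀ v, P.degreeOf v ≤ d) →
      (((Finset.Ico n (n + r)).filter (Rel g P b (δ * Real.sqrt (Real.log r)))).card : ℝ) ≤ η * r := by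
    intro n hn P hP0 hPd
    rw [hG, mem_filter, hBad] at hn
    by_contra hcon
    push Not at hcon
    exact hn.2.2 ⟨P, hP0, hPd, hcon⟩
  refine ⟨G, by rw [hG]; exact filter_subset _ _, ?_, h1, ?_⟩
  · have h2 : Finset.Icc 1 N ⊆ (E ∪ G) ∪ Finset.range n0 := by
      intro n hn
      rw [mem_union, mem_union, hE, hG, mem_filter, mem_filter, mem_range]
      by_cases c1 : n0 ≤ n
      · by_cases c2 : Bad n
        · exact Or.inl (Or.inl ⟨hn, c1, c2⟩)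
        · exact Or.inl (Or.inr ⟨hn, c1, c2⟩)
      · exact Or.inr (not_le.1 c1)
    have h3 := (Finset.card_le_card h2).trans (Finset.card_union_le _ _)
    have h4 := Finset.card_union_le E G
    rw [Nat.card_Icc, Nat.add_sub_cancel, Finset.card_range] at h3
    have h5 : (N : ℝ) ≤ E.card + G.card + n0 := by exact_mod_cast h3.trans (Nat.add_le_add_right h4 _)
    have h6 : η / 2 * (r : ℝ) ≤ η / 2 * N := mul_le_mul_of_nonneg_left hrN1 (by positivity)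
    linarith
  · intro J n hn P hP0 hPd
    refine grid_poly (d := d) hη1 (fun m i => g (m + sh b i)) J _ ?_ P hP0 hPd
    intro j p hp
    have h2 := h1 (n j) (hn j) (ofArr p) (ofArr_ne p hp) (degreeOf_ofArr p)
    have h3 := Finset.card_filter_add_card_filter_not (s := Finset.Ico (n j) (n j + r))
      (fun m => ∑ α, p α * mo (fun i => g (m + sh b i)) α = 0)
    rw [Nat.card_Ico, Nat.add_sub_cancel_left] at h3
    have h4 : ((((Finset.Ico (n j) (n j + r)).filter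
        (fun m => ∑ α, p α * mo (fun i => g (m + sh b i)) α = 0)).card : ℕ) : ℝ) ≤ η * r := by
      refine le_trans ?_ h2
      have : (Finset.Ico (n j) (n j + r)).filter
          (fun m => ∑ α, p α * mo (fun i => g (m + sh b i)) α = 0) ⊆
          (Finset.Ico (n j) (n j + r)).filter (Rel g (ofArr p) b (δ * Real.sqrt (Real.log r))) := by
        intro m hm
        rw [mem_filter] at hm ⊢
        refine ⟨hm.1, fun i => g (m + b i), ?_, ?_⟩
        · rw [eval_ofArr]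
          have e : (Fin.cons (g m) (fun i => g (m + b i)) : Fin (k + 1) → ℝ) =
              fun i => g (m + sh b i) := by
            funext i
            refine Fin.cases ?_ (fun j => ?_) i
            · simp [sh]
            · simp [sh]
          rw [e]
          exact hm.2
        · intro i
          rw [sub_self, abs_zero]
          have h5 : n0 ≤ m := by
            have h6 := hn j
            rw [hG, mem_filter, mem_Icc] at h6
            exact h6.2.1.trans (mem_Ico.1 hm.1).1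
          have : 0 < Real.log (g m) := Real.log_pos (hg1 m h5)
          positivity
      exact_mod_cast Finset.card_le_card this
    have h5 : ((((Finset.Ico (n j) (n j + r)).filter
        (fun m => ∑ α, p α * mo (fun i => g (m + sh b i)) α = 0)).card : ℕ) : ℝ) +
        ((((Finset.Ico (n j) (n j + r)).filter
        (fun m => ¬ ∑ α, p α * mo (fun i => g (m + sh b i)) α = 0)).card : ℕ) : ℝ) = r := by
      exact_mod_cast h3
    have h6 : (1 - η) * r ≤ ((((Finset.Ico (n j) (n j + r)).filter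
        (fun m => ¬ ∑ α, p α * mo (fun i => g (m + sh b i)) α = 0)).card : ℕ) : ℝ) := by linarith
    exact h6

open Classical in
theorem fin2 (g : ℕ → ℝ) (n0 : ℕ) (hg1 : ∀ n, n0 ≤ n → 1 < g n)
    (hmain : Rare g) (k d : ℕ) (σ η : ℝ) (hσ : 0 < σ) (hη : 0 < η) (hη1 : η ≤ 1) (J : ℕ) :
    ∃ r₁ : ℕ, ∀ r : ℕ, r₁ ≤ r → ∀ N : ℕ, 1 ≤ N →
    (2 * r : ℝ) * Real.log (2 * r) ≤ Real.log N → ∀ b : Fin k → ℕ,
    (∀ i, (r : ℝ) ^ σ ≤ b i ∧ b i ≤ r) → (∀ i j, i ≠ j → (r : ℝ) ^ σ ≤ |(b i : ℝ) - b j|) →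
    (((Fintype.piFinset (fun _ : Fin J => Finset.Icc 1 N)).filter (fun n : Fin J → ℕ =>
      ∃ P : MvPolynomial (Fin J × Fin (k + 1)) ℝ, P ≠ 0 ∧ (∀ v, P.degreeOf v ≤ d) ∧
        η * r < (((Finset.range r).filter (fun i =>
          eval (fun v : Fin J × Fin (k + 1) => g (n v.1 + i + sh b v.2)) P = 0)).card : ℝ))).card : ℝ) ≤
      η * (N : ℝ) ^ J := by
  classical
  obtain ⟨r₁, hr₁⟩ := (multi g n0 hg1 hmain k d J σ η hσ hη hη1).exists_forall_of_atTop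
  refine ⟨r₁, ?_⟩
  intro r hr N hN hrN b hb hbb
  refine hr₁ r hr N hN hrN (sh b) rfl (sh_le hb) (sh_sep hb hbb) _ ?_
  intro n hn
  rw [mem_filter, Fintype.mem_piFinset] at hn
  obtain ⟨h1, P, hP0, hPd, hP⟩ := hn
  refine ⟨fun j => Finset.mem_Icc.1 (h1 j), P, hP0, hPd, _, filter_subset _ _, hP, ?_⟩
  intro i hi
  exact (mem_filter.1 hi).2

end

end Pool.Agent.J4.H86.EB
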