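import Pool.Agent.J4.H86.EB.Alg

/-! # A Schwartz–Zippel lemma for products of point sets which are not on hypersurfaces -/

set_option autoImplicit false

namespace Pool.Agent.J4.H86.EB

open Finset MvPolynomial

noncomputable section

/-- the monomial with exponents `α` at `x` -/
def mo {V : Type} [Fintype V] {d : ℕ} (x : V → ℝ) (α : V → Fin (d + 1)) : ℝ := ∏ i, x i ^ (α i : ℕ)

lemma sum_cons {I : Type} [Fintype I] {J : ℕ} (g : (Fin (J + 1) → I) → ℝ) :
    ∑ α, g α = ∑ β : I, ∑ α' : Fin J → I, g (Fin.cons β α') := by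
  rw [← Fintype.sum_prod_type' (fun (β : I) (α' : Fin J → I) => g (Fin.cons β α'))]
  exact (Fintype.sum_equiv (Fin.consEquiv (fun _ => I)) _ _ (fun x => rfl)).symm

lemma grid {V : Type} [Fintype V] [DecidableEq V] {d r : ℕ} {η : ℝ} (hη : η ≤ 1) (pt : ℕ → V → ℝ) (J : ℕ) (S : Fin J → Finset ℕ)
    (hS : ∀ j, ∀ p : (V → Fin (d + 1)) → ℝ, p ≠ 0 →
      (1 - η) * r ≤ (((S j).filter (fun m => ∑ α, p α * mo (pt m) α ≠ 0)).card : ℝ))
    (p : (Fin J → V → Fin (d + 1)) → ℝ) (hp : p ≠ 0) :
    ((1 - η) * r) ^ J ≤ (((Fintype.piFinset S).filter (fun m =>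
      ∑ α, p α * ∏ j, mo (pt (m j)) (α j) ≠ 0)).card : ℝ) := by
  classical
  induction J with
  | zero =>
    rw [pow_zero]
    have h1 : ∀ x : Fin 0 → V → Fin (d + 1), p x ≠ 0 := by
      intro x h
      apply hp
      funext α
      rw [Subsingleton.elim α x, h]
      rfl
    have h2 : (default : Fin 0 → ℕ) ∈ (Fintype.piFinset S).filter (fun m =>
        ∑ α, p α * ∏ j, mo (pt (m j)) (α j) ≠ 0) := by
      rw [mem_filter, Fintype.mem_piFinset]
      refine ⟨fun j => j.elim0, ?_⟩
      rw [Fintype.sum_unique, Finset.univ_eq_empty, Finset.prod_empty, mul_one]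
      exact h1 _
    have : 0 < ((Fintype.piFinset S).filter (fun m =>
        ∑ α, p α * ∏ j, mo (pt (m j)) (α j) ≠ 0)).card := Finset.card_pos.2 ⟨_, h2⟩
    exact_mod_cast this
  | succ J ih =>
    obtain ⟨α, hα⟩ : ∃ α, p α ≠ 0 := by
      by_contra h
      push Not at h
      exact hp (funext h)
    obtain ⟨q, hq⟩ : ∃ q : (Fin J → V → Fin (d + 1)) → ℝ, q = fun α' => p (Fin.cons (α 0) α') :=
      ⟨_, rfl⟩
    have hq0 : q ≠ 0 := by
      intro h
      have := congrFun h (fun j => α j.succ)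
      rw [hq] at this
      apply hα
      have e : (Fin.cons (α 0) (fun j => α j.succ) : Fin (J + 1) → V → Fin (d + 1)) = α :=
        Fin.cons_self_tail α
      simp only [e] at this
      exact this
    have h1 := ih (fun j => S j.succ) (fun j => hS j.succ) q hq0
    obtain ⟨A, hA⟩ : ∃ A : Finset (Fin J → ℕ), A = (Fintype.piFinset (fun j => S j.succ)).filter
      (fun m => ∑ α, q α * ∏ j, mo (pt (m j)) (α j) ≠ 0) := ⟨_, rfl⟩
    rw [← hA] at h1
    -- the coefficients in the first cluster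
    obtain ⟨c, hc⟩ : ∃ c : (Fin J → ℕ) → (V → Fin (d + 1)) → ℝ, c = fun m β =>
      ∑ α' : Fin J → V → Fin (d + 1), p (Fin.cons β α') * ∏ j, mo (pt (m j)) (α' j) := ⟨_, rfl⟩
    have hc0 : ∀ m ∈ A, c m ≠ 0 := by
      intro m hm h
      rw [hA, mem_filter] at hm
      apply hm.2
      have := congrFun h (α 0)
      rw [hc] at this
      rw [hq]
      exact this
    obtain ⟨B, hB⟩ : ∃ B : (Fin J → ℕ) → Finset ℕ, B = fun m => (S 0).filter
      (fun a => ∑ β, c m β * mo (pt a) β ≠ 0) := ⟨_, rfl⟩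
    have hBc : ∀ m ∈ A, (1 - η) * r ≤ ((B m).card : ℝ) := by
      intro m hm
      rw [hB]
      exact hS 0 (c m) (hc0 m hm)
    have h2 : (A.sigma B).card ≤ ((Fintype.piFinset S).filter (fun m =>
      ∑ α, p α * ∏ j, mo (pt (m j)) (α j) ≠ 0)).card := by
      apply Finset.card_le_card_of_injOn (fun x => (Fin.cons x.2 x.1 : Fin (J + 1) → ℕ))
      · rintro ⟨m, a⟩ hx
        rw [mem_coe, mem_sigma] at hx
        obtain ⟨hm, ha⟩ := hx
        rw [hB, mem_filter] at ha
        rw [hA, mem_filter, Fintype.mem_piFinset] at hm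
        rw [mem_coe, mem_filter, Fintype.mem_piFinset]
        refine ⟨?_, ?_⟩
        · intro j
          refine Fin.cases ?_ (fun j => ?_) j
          · exact ha.1
          · exact hm.1 j
        · rw [sum_cons]
          have e : ∀ β : V → Fin (d + 1), ∑ α' : Fin J → V → Fin (d + 1),
              p (Fin.cons β α') * ∏ j, mo (pt ((Fin.cons a m : Fin (J + 1) → ℕ) j))
                ((Fin.cons β α' : Fin (J + 1) → V → Fin (d + 1)) j) =
              c m β * mo (pt a) β := by
            intro β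
            rw [hc]
            simp only
            rw [Finset.sum_mul]
            refine Finset.sum_congr rfl fun α' _ => ?_
            rw [Fin.prod_univ_succ]
            simp only [Fin.cons_zero, Fin.cons_succ]
            ring
          simp only [e]
          exact ha.2
      · rintro ⟨m, a⟩ _ ⟨m', a'⟩ _ h
        have h0 := congrFun h 0
        simp only [Fin.cons_zero] at h0
        have h1 : m = m' := by
          funext j
          have := congrFun h j.succ
          simpa only [Fin.cons_succ] using this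
        subst h1
        subst h0
        rfl
    have h3 : ((1 - η) * r) ^ J * ((1 - η) * r) ≤ ((A.sigma B).card : ℝ) := by
      rw [Finset.card_sigma]
      push_cast
      have h00 : 0 ≤ (1 - η) * r := mul_nonneg (by linarith) (Nat.cast_nonneg _)
      calc ((1 - η) * r) ^ J * ((1 - η) * r) ≤ (A.card : ℝ) * ((1 - η) * r) := by gcongr
        _ = ∑ m ∈ A, (1 - η) * (r : ℝ) := by rw [Finset.sum_const, nsmul_eq_mul]
        _ ≤ _ := Finset.sum_le_sum hBc
    rw [pow_succ]
    exact h3.trans (by exact_mod_cast h2)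

/-- the same for polynomials -/
lemma grid_poly {V : Type} [Fintype V] [DecidableEq V] {d r : ℕ} {η : ℝ} (hη : η ≤ 1) (pt : ℕ → V → ℝ) (J : ℕ) (S : Fin J → Finset ℕ)
    (hS : ∀ j, ∀ p : (V → Fin (d + 1)) → ℝ, p ≠ 0 →
      (1 - η) * r ≤ (((S j).filter (fun m => ∑ α, p α * mo (pt m) α ≠ 0)).card : ℝ))
    (P : MvPolynomial (Fin J × V) ℝ) (h0 : P ≠ 0) (hP : ∀ v, P.degreeOf v ≤ d) :
    ((1 - η) * r) ^ J ≤ (((Fintype.piFinset S).filter (fun m : Fin J → ℕ =>
      eval (fun v : Fin J × V => pt (m v.1) v.2) P ≠ 0)).card : ℝ) := by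
  classical
  obtain ⟨f, hf⟩ := coeff_ne P hP h0
  have h1 := grid hη pt J S hS (fun α => coeff (ex (fun v : Fin J × V => α v.1 v.2)) P) (by
    intro h
    exact hf (congrFun h (fun j i => f (j, i))))
  refine h1.trans (le_of_eq ?_)
  congr 2
  refine Finset.filter_congr fun m _ => ?_
  rw [eval_sum P hP]
  rw [Fintype.sum_equiv (Equiv.curry (Fin J) V (Fin (d + 1))) _
    (fun α => coeff (ex (fun v : Fin J × V => α v.1 v.2)) P * ∏ j, mo (pt (m j)) (α j))]
  intro f
  congr 1
  unfold mo
  rw [Fintype.prod_prod_type]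
  rfl

end

end Pool.Agent.J4.H86.EB
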