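import Pool.Agent.J4.H86.EB.Grid
import Pool.Agent.J4.H86.EB.Blk

/-! # Relations between parallel blocks at several places -/

set_option autoImplicit false

namespace Pool.Agent.J4.H86.EB

open Finset MvPolynomial Filter

noncomputable section

/-- the polynomial with given coefficients -/
def ofArr {V : Type} [Fintype V] [DecidableEq V] {d : ℕ} (p : (V → Fin (d + 1)) → ℝ) : MvPolynomial V ℝ :=
  ∑ f, monomial (ex f) (p f)

section

variable {V : Type} [Fintype V] [DecidableEq V]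

lemma coeff_ofArr {d : ℕ} (p : (V → Fin (d + 1)) → ℝ) (f : V → Fin (d + 1)) :
    coeff (ex f) (ofArr p) = p f := by
  classical
  unfold ofArr
  rw [coeff_sum, Finset.sum_eq_single f]
  · rw [coeff_monomial, if_pos rfl]
  · intro g _ hg
    rw [coeff_monomial, if_neg]
    exact fun h => hg (ex_inj h)
  · intro h
    exact absurd (mem_univ f) h

lemma ofArr_ne {d : ℕ} (p : (V → Fin (d + 1)) → ℝ) (hp : p ≠ 0) : ofArr p ≠ 0 := by
  intro h
  apply hp
  funext f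
  rw [← coeff_ofArr p f, h, coeff_zero]
  rfl

lemma degreeOf_ofArr {d : ℕ} (p : (V → Fin (d + 1)) → ℝ) (v : V) : (ofArr p).degreeOf v ≤ d := by
  classical
  rw [MvPolynomial.degreeOf_le_iff]
  intro m hm
  have h1 := MvPolynomial.support_sum hm
  rw [mem_biUnion] at h1
  obtain ⟨f, -, hf⟩ := h1
  have h2 := MvPolynomial.support_monomial_subset hf
  rw [mem_singleton] at h2
  rw [h2, ex_apply]
  exact Nat.lt_succ_iff.1 (f v).2

lemma totalDegree_le {d : ℕ} (P : MvPolynomial V ℝ) (hP : ∀ v, P.degreeOf v ≤ d) :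
    P.totalDegree ≤ Fintype.card V * d := by
  unfold MvPolynomial.totalDegree
  apply Finset.sup_le
  intro s hs
  rw [Finsupp.sum_fintype _ _ (fun _ => rfl)]
  calc ∑ v, s v ≤ ∑ _v : V, d :=
        Finset.sum_le_sum fun v _ => (MvPolynomial.monomial_le_degreeOf v hs).trans (hP v)
    _ = _ := by rw [Finset.sum_const, Finset.card_univ, smul_eq_mul]

lemma eval_ofArr {d : ℕ} (p : (V → Fin (d + 1)) → ℝ) (x : V → ℝ) :
    eval x (ofArr p) = ∑ α, p α * mo x α := by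
  rw [eval_sum (ofArr p) (degreeOf_ofArr p)]
  refine Finset.sum_congr rfl fun α _ => ?_
  rw [coeff_ofArr]
  rfl

end

/-- one place -/
lemma one (g : ℕ → ℝ) (n0 : ℕ) (hg1 : ∀ n, n0 ≤ n → 1 < g n) (hmain : Rare g)
    (V : Type) [Fintype V] [DecidableEq V] (D : ℕ) (σ η : ℝ) (hσ : 0 < σ) (hη : 0 < η) :
    ∀ᶠ r : ℕ in atTop, ∀ N : ℕ, 1 ≤ N → (2 * r : ℝ) * Real.log (2 * r) ≤ Real.log N →
    ∀ s : V → ℕ, (∀ v, s v ≤ 2 * r) → (∃ v0, s v0 ≤ r ∧ ∀ v, s v0 ≤ s v) →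
    (∀ v w, v ≠ w → (r : ℝ) ^ σ ≤ |(s v : ℝ) - s w|) →
    ∀ Q : MvPolynomial V ℝ, Q ≠ 0 → Q.totalDegree ≤ D →
    (((Finset.Icc 1 N).filter (fun n => eval (fun v => g (n + s v)) Q = 0)).card : ℝ) ≤ η * N := by
  classical
  have h1 : ∀ v0 : V, ∀ᶠ r : ℕ in atTop, ∀ N : ℕ, 1 ≤ N → r * Real.log r ≤ Real.log N → ∀ b : V → ℕ,
      b v0 = 0 → (∀ v, b v ≤ r) → (∀ v w, v ≠ w → (r : ℝ) ^ (σ / 2) ≤ |(b v : ℝ) - b w|) →
      ∀ P : MvPolynomial V ℝ, P ≠ 0 → P.totalDegree ≤ D → ∀ E : Finset ℕ,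
      (∀ n ∈ E, 1 ≤ n ∧ n ≤ N ∧ 0 ≤ Real.log (g n) ∧ eval (fun v => g (n + b v)) P = 0) →
      (E.card : ℝ) ≤ η / 4 * N := by
    intro v0
    obtain ⟨δ, hδ, h⟩ := hmain V v0 D (σ / 2) (η / 4) (by positivity) (by positivity)
    filter_upwards [h, eventually_ge_atTop 1] with r hr hr1
    intro N hN hrN b hb0 hb hbb P hP hPd E hE
    refine hr N hN hrN b hb0 hb hbb P hP hPd E ?_
    intro n hn
    obtain ⟨a1, a2, a3, a4⟩ := hE n hn
    refine ⟨a1, a2, fun v => g (n + b v), a4, ?_, ?_⟩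
    · simp only [hb0, add_zero]
    · intro v
      rw [sub_self, abs_zero]
      positivity
  have h2 := Filter.eventually_all.2 h1
  have hev2 := (tendsto_id.const_mul_atTop' (by norm_num : 0 < 2) : Tendsto (fun r : ℕ => 2 * r)
    atTop atTop).eventually h2
  have hev3 : ∀ᶠ r : ℕ in atTop, (n0 : ℝ) ≤ η / 2 * r := by
    filter_upwards [tendsto_natCast_atTop_atTop.eventually_ge_atTop ((n0 : ℝ) / (η / 2))] with r hr
    rw [div_le_iff₀ (by positivity)] at hr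
    linarith
  filter_upwards [hev2, hev3, eventually_ge_atTop 2] with r hr hrn0 hr2
  intro N hN hrN s hs hv0 hsep Q hQ hQd
  obtain ⟨v0, hv0, hmin⟩ := hv0
  have hr2' : (2 : ℝ) ≤ r := by exact_mod_cast hr2
  have hr0 : (0 : ℝ) < r := by linarith
  have hN1 : (1 : ℝ) ≤ N := by exact_mod_cast hN
  have hrN' : r ≤ N := r_le_N hr2 hN hrN
  have hrN1 : (r : ℝ) ≤ N := by exact_mod_cast hrN'
  have hρ2 : ((2 * r : ℕ) : ℝ) ^ (σ / 2) ≤ (r : ℝ) ^ σ := by
    have h1 : ((2 * r : ℕ) : ℝ) ≤ (r : ℝ) ^ (2 : ℝ) := by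
      push_cast
      rw [Real.rpow_two]
      nlinarith
    calc ((2 * r : ℕ) : ℝ) ^ (σ / 2) ≤ ((r : ℝ) ^ (2 : ℝ)) ^ (σ / 2) :=
          Real.rpow_le_rpow (Nat.cast_nonneg _) h1 (by positivity)
      _ = (r : ℝ) ^ σ := by rw [← Real.rpow_mul hr0.le]; congr 1; ring
  obtain ⟨A, hA⟩ : ∃ A : Finset ℕ, A = (Finset.Icc 1 N).filter
    (fun n => eval (fun v => g (n + s v)) Q = 0) := ⟨_, rfl⟩
  obtain ⟨B, hB⟩ : ∃ B : Finset ℕ, B = A.filter (fun n => n0 ≤ n) := ⟨_, rfl⟩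
  have e1 : ((B.image (fun n => n + s v0)).card : ℝ) ≤ η / 4 * ((2 * N : ℕ) : ℝ) := by
    refine hr v0 (2 * N) (by omega) (by
        push_cast
        refine hrN.trans (Real.log_le_log (by linarith) (by linarith)))
      (fun v => s v - s v0) (by simp) (fun v => (Nat.sub_le _ _).trans (hs v)) ?_ Q hQ hQd _ ?_
    · intro v w hvw
      have := hsep v w hvw
      rw [Nat.cast_sub (hmin v), Nat.cast_sub (hmin w), sub_sub_sub_cancel_right]
      exact hρ2.trans this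
    · intro n' hn'
      rw [mem_image] at hn'
      obtain ⟨n, hn, rfl⟩ := hn'
      rw [hB, mem_filter, hA, mem_filter, mem_Icc] at hn
      obtain ⟨⟨⟨a1, a2⟩, a3⟩, a4⟩ := hn
      refine ⟨by omega, by omega, Real.log_nonneg (hg1 _ (by omega)).le, ?_⟩
      rw [← a3]
      congr 1
      congr 1
      funext v
      congr 1
      have := hmin v
      omega
  rw [Finset.card_image_of_injective _ (fun a a' h => Nat.add_right_cancel h)] at e1
  have e2 : A ⊆ B ∪ Finset.range n0 := by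
    intro n hn
    rw [mem_union, hB, mem_filter, mem_range]
    by_cases h : n0 ≤ n
    · exact Or.inl ⟨hn, h⟩
    · exact Or.inr (not_le.1 h)
  have e3 := (Finset.card_le_card e2).trans (Finset.card_union_le _ _)
  rw [Finset.card_range] at e3
  have e4 : (A.card : ℝ) ≤ B.card + n0 := by exact_mod_cast e3
  rw [← hA]
  push_cast at e1
  have e5 : η / 2 * (r : ℝ) ≤ η / 2 * N := mul_le_mul_of_nonneg_left hrN1 (by positivity)
  linarith

/-- several places -/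
lemma rareJ (g : ℕ → ℝ) (n0 : ℕ) (hg1 : ∀ n, n0 ≤ n → 1 < g n) (hmain : Rare g)
    (V : Type) [Fintype V] [DecidableEq V] (J D : ℕ) (σ η : ℝ) (hσ : 0 < σ) (hη : 0 < η)
    (hη1 : η ≤ 1) :
    ∀ᶠ r : ℕ in atTop, ∀ N : ℕ, 1 ≤ N → (2 * r : ℝ) * Real.log (2 * r) ≤ Real.log N →
    ∀ s : V → ℕ, (∀ v, s v ≤ 2 * r) → (∃ v0, s v0 ≤ r ∧ ∀ v, s v0 ≤ s v) →
    (∀ v w, v ≠ w → (r : ℝ) ^ σ ≤ |(s v : ℝ) - s w|) →
    ∀ Q : MvPolynomial (Fin J × V) ℝ, Q ≠ 0 → (∀ v, Q.degreeOf v ≤ D) →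
    (((Fintype.piFinset (fun _ : Fin J => Finset.Icc 1 N)).filter
      (fun n : Fin J → ℕ => eval (fun v : Fin J × V => g (n v.1 + s v.2)) Q = 0)).card : ℝ) ≤
      J * η * (N : ℝ) ^ J := by
  classical
  filter_upwards [one g n0 hg1 hmain V (Fintype.card V * D) σ η hσ hη] with r hr
  intro N hN hrN s hs hv0 hsep Q hQ hQd
  have h1 := grid_poly (d := D) (r := N) hη1 (fun m v => g (m + s v)) J (fun _ => Finset.Icc 1 N) (by
    intro j p hp
    have h2 := hr N hN hrN s hs hv0 hsep (ofArr p) (ofArr_ne p hp)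
      (totalDegree_le _ (degreeOf_ofArr p))
    simp only [eval_ofArr] at h2
    have h3 := Finset.card_filter_add_card_filter_not (s := Finset.Icc 1 N)
      (fun m => ∑ α, p α * mo (fun v => g (m + s v)) α = 0)
    rw [Nat.card_Icc, Nat.add_sub_cancel] at h3
    have h4 : ((((Finset.Icc 1 N).filter
        (fun m => ∑ α, p α * mo (fun v => g (m + s v)) α = 0)).card : ℕ) : ℝ) +
        ((((Finset.Icc 1 N).filter
        (fun m => ¬ ∑ α, p α * mo (fun v => g (m + s v)) α = 0)).card : ℕ) : ℝ) = N := by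
      exact_mod_cast h3
    have h5 : (1 - η) * N ≤ ((((Finset.Icc 1 N).filter
        (fun m => ¬ ∑ α, p α * mo (fun v => g (m + s v)) α = 0)).card : ℕ) : ℝ) := by linarith
    exact h5) Q hQ hQd
  have h2 := Finset.card_filter_add_card_filter_not
    (s := Fintype.piFinset (fun _ : Fin J => Finset.Icc 1 N))
    (fun n : Fin J → ℕ => eval (fun v : Fin J × V => g (n v.1 + s v.2)) Q = 0)
  rw [Fintype.card_piFinset, Finset.prod_const, Nat.card_Icc, Nat.add_sub_cancel, Finset.card_univ,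
    Fintype.card_fin] at h2
  have h3 : ((((Fintype.piFinset (fun _ : Fin J => Finset.Icc 1 N)).filter
      (fun n : Fin J → ℕ => eval (fun v : Fin J × V => g (n v.1 + s v.2)) Q = 0)).card : ℕ) : ℝ) +
      ((((Fintype.piFinset (fun _ : Fin J => Finset.Icc 1 N)).filter
      (fun n : Fin J → ℕ => ¬ eval (fun v : Fin J × V => g (n v.1 + s v.2)) Q = 0)).card : ℕ) : ℝ) =
      (N : ℝ) ^ J := by exact_mod_cast h2
  have h4 : ((1 - η) * N) ^ J ≤ ((((Fintype.piFinset (fun _ : Fin J => Finset.Icc 1 N)).filter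
      (fun n : Fin J → ℕ => ¬ eval (fun v : Fin J × V => g (n v.1 + s v.2)) Q = 0)).card : ℕ) : ℝ) := h1
  have h5 : 1 - J * η ≤ (1 - η) ^ J := by
    have := one_add_mul_le_pow (a := -η) (by linarith) J
    calc 1 - J * η = 1 + J * (-η) := by ring
      _ ≤ (1 + -η) ^ J := this
      _ = _ := by ring
  have h6 : (1 - J * η) * (N : ℝ) ^ J ≤ ((1 - η) * N) ^ J := by
    rw [mul_pow]
    exact mul_le_mul_of_nonneg_right h5 (by positivity)
  linarith

/-- all polynomials in parallel blocks at `J` places -/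
lemma multi (g : ℕ → ℝ) (n0 : ℕ) (hg1 : ∀ n, n0 ≤ n → 1 < g n) (hmain : Rare g)
    (k d J : ℕ) (σ η : ℝ) (hσ : 0 < σ) (hη : 0 < η) (hη1 : η ≤ 1) :
    ∀ᶠ r : ℕ in atTop, ∀ N : ℕ, 1 ≤ N → (2 * r : ℝ) * Real.log (2 * r) ≤ Real.log N →
    ∀ b : Fin (k + 1) → ℕ, b 0 = 0 → (∀ v, b v ≤ r) →
    (∀ v w, v ≠ w → (r : ℝ) ^ σ ≤ |(b v : ℝ) - b w|) → ∀ E : Finset (Fin J → ℕ),
    (∀ n ∈ E, (∀ j, 1 ≤ n j ∧ n j ≤ N) ∧ ∃ P : MvPolynomial (Fin J × Fin (k + 1)) ℝ, P ≠ 0 ∧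
      (∀ v, P.degreeOf v ≤ d) ∧ ∃ S : Finset ℕ, S ⊆ Finset.range r ∧ η * r < S.card ∧
      ∀ i ∈ S, eval (fun v : Fin J × Fin (k + 1) => g (n v.1 + i + b v.2)) P = 0) →
    (E.card : ℝ) ≤ η * (N : ℝ) ^ J := by
  classical
  -- notation
  let W := Fin J × Fin (k + 1)
  let I := W → Fin (d + 1)
  let V := I × Fin (k + 1)
  let j0 : I := fun _ => 0
  obtain ⟨D, hD⟩ : ∃ D : ℕ, D = Fintype.card I := ⟨_, rfl⟩
  have hD1 : 1 ≤ D := by rw [hD]; exact Fintype.card_pos_iff.2 ⟨j0⟩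
  obtain ⟨σ', hσ'⟩ : ∃ σ' : ℝ, σ' = min σ (1 / 2) := ⟨_, rfl⟩
  have hσ'0 : 0 < σ' := by rw [hσ']; exact lt_min hσ (by norm_num)
  have hσ'σ : σ' ≤ σ := by rw [hσ']; exact min_le_left _ _
  have hσ'h : σ' ≤ 1 / 2 := by rw [hσ']; exact min_le_right _ _
  obtain ⟨η', hη'⟩ : ∃ η' : ℝ, η' = η ^ (D + 1) / (2 * (J + 1)) := ⟨_, rfl⟩
  have hη'0 : 0 < η' := by rw [hη']; positivity
  have hη'1 : η' ≤ 1 := by
    rw [hη', div_le_one (by positivity)]
    calc η ^ (D + 1) ≤ 1 := pow_le_one₀ hη.le hη1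
      _ ≤ 2 * ((J : ℝ) + 1) := by
        have : (0 : ℝ) ≤ J := Nat.cast_nonneg _
        linarith
  have hev := rareJ g n0 hg1 hmain V J (Dl W d).totalDegree σ' η' hσ'0 hη'0 hη'1
  -- most patterns
  obtain ⟨Q0, hQ0⟩ : ∃ Q0 : ℝ, Q0 = ((D * (k + 1) : ℕ) : ℝ) ^ 2 := ⟨_, rfl⟩
  have hQ00 : 0 ≤ Q0 := by rw [hQ0]; positivity
  have hev3 : ∀ᶠ r : ℕ in atTop, Q0 * (2 * (r : ℝ) ^ σ' + 1) ≤ η ^ D / 2 * r := by
    have h1 : Tendsto (fun r : ℕ => Real.sqrt r) atTop atTop :=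
      Real.tendsto_sqrt_atTop.comp tendsto_natCast_atTop_atTop
    filter_upwards [h1.eventually_ge_atTop (6 * Q0 / η ^ D), eventually_ge_atTop 1] with r hr hr1
    have hr1' : (1 : ℝ) ≤ r := by exact_mod_cast hr1
    have h2 : (r : ℝ) ^ σ' ≤ Real.sqrt r := by
      rw [Real.sqrt_eq_rpow]
      exact Real.rpow_le_rpow_of_exponent_le hr1' hσ'h
    have h3 : 1 ≤ Real.sqrt r := Real.one_le_sqrt.2 hr1'
    have h4 : Real.sqrt r * Real.sqrt r = r := Real.mul_self_sqrt (by linarith)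
    rw [div_le_iff₀ (by positivity)] at hr
    calc Q0 * (2 * (r : ℝ) ^ σ' + 1) ≤ Q0 * (2 * Real.sqrt r + Real.sqrt r) := by gcongr
      _ = (6 * Q0) / 2 * Real.sqrt r := by ring
      _ ≤ (Real.sqrt r * η ^ D) / 2 * Real.sqrt r := by gcongr
      _ = η ^ D / 2 * (Real.sqrt r * Real.sqrt r) := by ring
      _ = _ := by rw [h4]
  filter_upwards [hev, hev3, eventually_ge_atTop 2] with r hr hr3 hr2
  intro N hN hrN b hb0 hb hbb E hE
  have hr2' : (2 : ℝ) ≤ r := by exact_mod_cast hr2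
  have hr0 : (0 : ℝ) < r := by linarith
  have hρ0 : 0 ≤ (r : ℝ) ^ σ' := by positivity
  have hρσ : (r : ℝ) ^ σ' ≤ (r : ℝ) ^ σ := Real.rpow_le_rpow_of_exponent_le (by linarith) hσ'σ
  choose! hE1 P hP0 hPd S hS1 hS2 hS3 using hE
  -- the patterns
  obtain ⟨T, hT⟩ : ∃ T : Finset (I → ℕ), T = Fintype.piFinset (fun _ : I => Finset.range r) := ⟨_, rfl⟩
  have hTc : (T.card : ℝ) = (r : ℝ) ^ D := by
    rw [hT, Fintype.card_piFinset, Finset.prod_const, Finset.card_univ, Finset.card_range, hD]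
    push_cast
    rfl
  obtain ⟨G, hG⟩ : ∃ G : Finset (I → ℕ), G = T.filter (Sep b ((r : ℝ) ^ σ')) := ⟨_, rfl⟩
  obtain ⟨R, hR⟩ : ∃ R : (Fin J → ℕ) → (I → ℕ) → Prop, R = fun n c => ∀ j, c j ∈ S n := ⟨_, rfl⟩
  have hRn : ∀ n c, R n c ↔ ∀ j, c j ∈ S n := by
    intro n c
    rw [hR]
  have hlow : ∀ n ∈ E, (η * r) ^ D / 2 ≤ ((G.filter (R n)).card : ℝ) := by
    intro n hn
    have h1 := many (I := I) b ((r : ℝ) ^ σ') hρ0 (fun i i' h => hρσ.trans (hbb i i' h)) r (S n)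
      (hS1 n hn)
    have h2 : (Fintype.piFinset (fun _ : I => S n)).filter (Sep b ((r : ℝ) ^ σ')) ⊆ G.filter (R n) := by
      intro c hc
      rw [mem_filter, Fintype.mem_piFinset] at hc
      rw [hG, hT, mem_filter, mem_filter, Fintype.mem_piFinset, hRn]
      exact ⟨⟨fun j => hS1 n hn (hc.1 j), hc.2⟩, fun j => hc.1 j⟩
    have h3 : (((Fintype.piFinset (fun _ : I => S n)).filter (Sep b ((r : ℝ) ^ σ'))).card : ℝ) ≤
        ((G.filter (R n)).card : ℝ) := by exact_mod_cast Finset.card_le_card h2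
    rw [← hD, ← hQ0] at h1
    have h4 : (η * r) ^ D ≤ ((S n).card : ℝ) ^ D :=
      pow_le_pow_left₀ (by positivity) (hS2 n hn).le _
    have h5 : Q0 * ((r : ℝ) ^ (D - 1) * (2 * (r : ℝ) ^ σ' + 1)) ≤ (η * r) ^ D / 2 := by
      have e : (r : ℝ) ^ D = (r : ℝ) ^ (D - 1) * r := by
        rw [← pow_succ, Nat.sub_add_cancel hD1]
      calc Q0 * ((r : ℝ) ^ (D - 1) * (2 * (r : ℝ) ^ σ' + 1))
          = (r : ℝ) ^ (D - 1) * (Q0 * (2 * (r : ℝ) ^ σ' + 1)) := by ring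
        _ ≤ (r : ℝ) ^ (D - 1) * (η ^ D / 2 * r) := by gcongr
        _ = η ^ D * ((r : ℝ) ^ (D - 1) * r) / 2 := by ring
        _ = _ := by rw [← e, mul_pow]
    linarith
  -- the polynomial
  let e : I × W ≃ Fin J × V :=
    { toFun := fun x => (x.2.1, (x.1, x.2.2))
      invFun := fun x => (x.2.1, (x.1, x.2.2))
      left_inv := fun x => rfl
      right_inv := fun x => rfl }
  have hup : ∀ c ∈ G, ((E.filter (fun n => R n c)).card : ℝ) ≤ J * η' * (N : ℝ) ^ J := by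
    intro c hc
    rw [hG, hT, mem_filter, Fintype.mem_piFinset] at hc
    obtain ⟨hc1, hc2⟩ := hc
    have hcr : ∀ j, c j < r := fun j => Finset.mem_range.1 (hc1 j)
    obtain ⟨j1, hj1⟩ : ∃ j1 : I, ∀ j, c j1 ≤ c j := by
      obtain ⟨j1, -, h⟩ := Finset.exists_min_image (univ : Finset I) c ⟨j0, mem_univ _⟩
      exact ⟨j1, fun j => h j (mem_univ _)⟩
    have key := hr N hN hrN (fun v : V => c v.1 + b v.2) (fun v => by
        have h1 := hcr v.1
        have h2 := hb v.2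
        omega) ⟨(j1, 0), by
          show c j1 + b 0 ≤ r
          have := hcr j1
          omega, fun v => by
          show c j1 + b 0 ≤ c v.1 + b v.2
          have := hj1 v.1
          omega⟩ (fun v w hvw => hc2 v w hvw) (rename e (Dl W d)) (by
        intro h
        exact Dl_ne W d (rename_injective e e.injective (by rw [h, map_zero]))) (fun v =>
        (MvPolynomial.degreeOf_le_totalDegree _ _).trans (MvPolynomial.totalDegree_rename_le _ _))
    refine le_trans ?_ key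
    have h1 : E.filter (fun n => R n c) ⊆ (Fintype.piFinset (fun _ : Fin J => Finset.Icc 1 N)).filter
        (fun n : Fin J → ℕ => eval (fun v : Fin J × V => g (n v.1 + (c v.2.1 + b v.2.2)))
          (rename e (Dl W d)) = 0) := by
      intro n hn
      rw [mem_filter, hRn] at hn
      obtain ⟨hnE, hnR⟩ := hn
      rw [mem_filter, Fintype.mem_piFinset]
      refine ⟨fun j => Finset.mem_Icc.2 (hE1 n hnE j), ?_⟩
      rw [eval_rename]
      apply Dl_zero (P n) (hP0 n hnE) (hPd n hnE)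
      intro j
      have h3 := hS3 n hnE (c j) (hnR j)
      rw [← h3]
      congr 1
      congr 1
      funext v
      show g (n v.1 + (c j + b v.2)) = g (n v.1 + c j + b v.2)
      rw [add_assoc]
    exact_mod_cast Finset.card_le_card h1
  -- double counting
  have hsum : ∑ n ∈ E, ((G.filter (R n)).card : ℝ) = ∑ c ∈ G, ((E.filter (fun n => R n c)).card : ℝ) := by
    have := Finset.sum_card_bipartiteAbove_eq_sum_card_bipartiteBelow (s := E) (t := G) R
    exact_mod_cast this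
  have h1 : (E.card : ℝ) * ((η * r) ^ D / 2) ≤ (r : ℝ) ^ D * (J * η' * (N : ℝ) ^ J) := by
    calc (E.card : ℝ) * ((η * r) ^ D / 2) = ∑ _n ∈ E, (η * r) ^ D / 2 := by
          rw [Finset.sum_const, nsmul_eq_mul]
      _ ≤ ∑ n ∈ E, ((G.filter (R n)).card : ℝ) := Finset.sum_le_sum hlow
      _ = ∑ c ∈ G, ((E.filter (fun n => R n c)).card : ℝ) := hsum
      _ ≤ ∑ _c ∈ G, J * η' * (N : ℝ) ^ J := Finset.sum_le_sum hup
      _ = (G.card : ℝ) * (J * η' * (N : ℝ) ^ J) := by rw [Finset.sum_const, nsmul_eq_mul]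
      _ ≤ (T.card : ℝ) * (J * η' * (N : ℝ) ^ J) := by
          apply mul_le_mul_of_nonneg_right _ (by positivity)
          rw [hG]
          exact_mod_cast Finset.card_le_card (filter_subset _ _)
      _ = _ := by rw [hTc]
  have h2 : 0 < (η * r) ^ D / 2 := by positivity
  apply le_of_mul_le_mul_right _ h2
  refine h1.trans ?_
  have hJ : (J : ℝ) * η' ≤ η ^ (D + 1) / 2 := by
    rw [hη']
    have hJ0 : (0 : ℝ) ≤ J := Nat.cast_nonneg _
    have hd : (J : ℝ) / (J + 1) ≤ 1 := by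
      rw [div_le_one (by positivity)]
      linarith
    calc (J : ℝ) * (η ^ (D + 1) / (2 * (J + 1))) = (J / (J + 1)) * (η ^ (D + 1) / 2) := by field_simp
      _ ≤ 1 * (η ^ (D + 1) / 2) := by gcongr
      _ = _ := one_mul _
  calc (r : ℝ) ^ D * (J * η' * (N : ℝ) ^ J) ≤ (r : ℝ) ^ D * (η ^ (D + 1) / 2 * (N : ℝ) ^ J) := by
        gcongr
    _ = _ := by rw [mul_pow, pow_succ]; ring

end

end Pool.Agent.J4.H86.EB
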