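import Pool.Agent.J4.H86.EB.Alg
import Pool.Agent.R320.PR.Main

/-! # Blocks of ordinates -/

set_option autoImplicit false

namespace Pool.Agent.J4.H86.EB

open Finset MvPolynomial Filter
open SG (ord)

noncomputable section

/-- `PR.main` for an arbitrary finite set of variables -/
lemma mainV (V : Type) [Fintype V] [DecidableEq V] (v0 : V) (d : ℕ) (σ η : ℝ) (hσ : 0 < σ)
    (hη : 0 < η) : ∃ δ : ℝ, 0 < δ ∧ ∀ᶠ r : ℕ in atTop,
    ∀ N : ℕ, 1 ≤ N → r * Real.log r ≤ Real.log N → ∀ b : V → ℕ, b v0 = 0 → (∀ v, b v ≤ r) →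
    (∀ v w, v ≠ w → (r : ℝ) ^ σ ≤ |(b v : ℝ) - b w|) →
    ∀ P : MvPolynomial V ℝ, P ≠ 0 → P.totalDegree ≤ d → ∀ E : Finset ℕ,
    (∀ n ∈ E, 1 ≤ n ∧ n ≤ N ∧ ∃ y : V → ℝ, eval y P = 0 ∧ y v0 = ord n ∧
      ∀ v, |ord (n + b v) - y v| ≤ δ * (Real.sqrt (Real.log r) / Real.log (ord n))) →
    (E.card : ℝ) ≤ η * N := by
  classical
  obtain ⟨k, hk⟩ : ∃ k, Fintype.card V = k + 1 :=
    ⟨Fintype.card V - 1, (Nat.succ_pred_eq_of_pos (Fintype.card_pos_iff.2 ⟨v0⟩)).symm⟩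
  obtain ⟨e, he⟩ : ∃ e : V ≃ Fin (k + 1), e v0 = 0 := by
    let e0 : V ≃ Fin (k + 1) := (Fintype.equivFin V).trans (finCongr hk)
    exact ⟨e0.trans (Equiv.swap (e0 v0) 0), by simp⟩
  obtain ⟨δ, hδ, h⟩ := Pool.Agent.R320.PR.main k d σ η hσ hη
  refine ⟨δ, hδ, ?_⟩
  filter_upwards [h] with r hr
  intro N hN hrN b hb0 hb hbb P hP hPd E hE
  have e1 : ∀ i : Fin k, e.symm i.succ ≠ v0 := by
    intro i h1
    have : i.succ = 0 := by rw [← he, ← h1, Equiv.apply_symm_apply]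
    exact Fin.succ_ne_zero i this
  refine hr N hN hrN (fun i => b (e.symm i.succ)) (fun i => ⟨hb _, ?_⟩) (fun i j hij => ?_)
    (rename e P) ?_ ?_ E ?_
  · have := hbb _ _ (e1 i)
    rw [hb0, Nat.cast_zero, sub_zero, abs_of_nonneg (Nat.cast_nonneg _)] at this
    exact this
  · apply hbb
    intro h1
    exact hij (Fin.succ_injective _ (e.symm.injective h1))
  · intro h1
    exact hP (rename_injective e e.injective (by rw [h1, map_zero]))
  · exact (MvPolynomial.totalDegree_rename_le _ _).trans hPd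
  · intro n hn
    obtain ⟨h1, h2, y, hy1, hy2, hy3⟩ := hE n hn
    refine ⟨h1, h2, fun i => y (e.symm i.succ), ?_, fun i => hy3 _⟩
    rw [eval_rename]
    have : (Fin.cons (ord n) (fun i => y (e.symm i.succ)) : Fin (k + 1) → ℝ) ∘ e = y := by
      funext v
      rw [Function.comp_apply]
      obtain ⟨i, hi⟩ : ∃ i, i = e v := ⟨_, rfl⟩
      have hv : v = e.symm i := by rw [hi, Equiv.symm_apply_apply]
      rw [← hi, hv]
      refine Fin.cases ?_ (fun j => ?_) i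
      · rw [Fin.cons_zero, ← he, Equiv.symm_apply_apply, hy2]
      · rw [Fin.cons_succ]
    rw [this]
    exact hy1

end

end Pool.Agent.J4.H86.EB
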